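import Pool.Agent.helper10.OM.SpecG
import Pool.Agent.helper93.OM.CUT

/-! # Row om:GCU (MP_bf63dc_nt): the cut norm, arbitrary slopes -/

set_option autoImplicit false

namespace Pool.Agent.OM

open Finset Real Pool.Agent.AT Pool.Agent.helper85.FC

/-- the sum over the pairs with `p'.1 < p.1` -/
theorem GCU_conv (F : Finset ℕ) (R Y : ℕ) (D : ℕ × ℕ → ℤ → ℝ) (φ ψ : ℕ × ℕ → ℝ) :
    ∑ p ∈ VF F Y, ∑ p' ∈ VF F Y, (if p'.1 < p.1 then D (rp p.1 p'.1) (((rp p.1 p'.1).2 : ℤ) * p.2 -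
      ((rp p.1 p'.1).1 : ℤ) * p'.2) else 0) * φ p * ψ p' =
    ∑ r ∈ RR F, ∑ x ∈ XX R Y, ∑ y ∈ XX R Y, D r ((r.2 : ℤ) * x - (r.1 : ℤ) * y) *
      gr F (CUT_ext Y φ) (CUT_ext Y ψ) r x y := by
  have e1 : ∀ r ∈ RR F, ∑ x ∈ XX R Y, ∑ y ∈ XX R Y, D r ((r.2 : ℤ) * x - (r.1 : ℤ) * y) *
      gr F (CUT_ext Y φ) (CUT_ext Y ψ) r x y = ∑ q ∈ FF F with rp q.1 q.2 = r, ∑ x ∈ range Y, ∑ y ∈ range Y,
      D (rp q.1 q.2) (((rp q.1 q.2).2 : ℤ) * x - ((rp q.1 q.2).1 : ℤ) * y) * φ (q.1, x) * ψ (q.2, y) := by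
    intro r _
    have f1 : ∑ x ∈ XX R Y, ∑ y ∈ XX R Y, D r ((r.2 : ℤ) * x - (r.1 : ℤ) * y) *
        gr F (CUT_ext Y φ) (CUT_ext Y ψ) r x y = ∑ x ∈ range Y, ∑ y ∈ range Y,
        D r ((r.2 : ℤ) * x - (r.1 : ℤ) * y) * gr F (CUT_ext Y φ) (CUT_ext Y ψ) r x y := by
      rw [CUT_sum]
      · apply Finset.sum_congr rfl
        intro x _
        rw [CUT_sum]
        intro y hy
        unfold gr
        rw [Finset.sum_eq_zero, mul_zero]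
        intro i _
        rw [CUT_ext_zero Y ψ i.2 y hy, mul_zero]
      · intro x hx
        apply Finset.sum_eq_zero
        intro y _
        unfold gr
        rw [Finset.sum_eq_zero, mul_zero]
        intro i _
        rw [CUT_ext_zero Y φ i.1 x hx, zero_mul]
    rw [f1]
    have f2 : ∀ x ∈ range Y, ∑ y ∈ range Y, D r ((r.2 : ℤ) * x - (r.1 : ℤ) * y) *
        gr F (CUT_ext Y φ) (CUT_ext Y ψ) r x y = ∑ q ∈ FF F with rp q.1 q.2 = r, ∑ y ∈ range Y,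
        D (rp q.1 q.2) (((rp q.1 q.2).2 : ℤ) * x - ((rp q.1 q.2).1 : ℤ) * y) * φ (q.1, x) * ψ (q.2, y) := by
      intro x hx
      rw [Finset.sum_comm]
      apply Finset.sum_congr rfl
      intro y hy
      unfold gr
      rw [Finset.mul_sum]
      apply Finset.sum_congr rfl
      intro q hq
      rw [Finset.mem_range] at hx hy
      rw [Finset.mem_filter] at hq
      rw [CUT_ext_nat Y φ q.1 x hx, CUT_ext_nat Y ψ q.2 y hy, hq.2, mul_assoc]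
    rw [Finset.sum_congr rfl f2, Finset.sum_comm]
  rw [Finset.sum_congr rfl e1]
  have hmt : ∀ q ∈ FF F, (fun q : ℕ × ℕ => rp q.1 q.2) q ∈ RR F := fun q hq => Finset.mem_image_of_mem _ hq
  rw [Finset.sum_fiberwise_of_maps_to (g := fun q : ℕ × ℕ => rp q.1 q.2) hmt
    (fun q => ∑ x ∈ range Y, ∑ y ∈ range Y,
      D (rp q.1 q.2) (((rp q.1 q.2).2 : ℤ) * x - ((rp q.1 q.2).1 : ℤ) * y) * φ (q.1, x) * ψ (q.2, y))]
  unfold FF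
  rw [Finset.sum_filter, Finset.sum_product]
  unfold VF
  rw [Finset.sum_product]
  apply Finset.sum_congr rfl
  intro s _
  have f3 : ∀ x ∈ range Y, ∑ p' ∈ F ×ˢ range Y, (if p'.1 < s then D (rp s p'.1) (((rp s p'.1).2 : ℤ) * x -
      ((rp s p'.1).1 : ℤ) * p'.2) else 0) * φ (s, x) * ψ p' = ∑ s' ∈ F, if s' < s then ∑ y ∈ range Y,
      D (rp s s') (((rp s s').2 : ℤ) * x - ((rp s s').1 : ℤ) * y) * φ (s, x) * ψ (s', y) else 0 := by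
    intro x _
    rw [Finset.sum_product]
    apply Finset.sum_congr rfl
    intro s' _
    split_ifs with h
    · rfl
    · apply Finset.sum_eq_zero
      intro y _
      rw [zero_mul, zero_mul]
  rw [Finset.sum_congr rfl f3, Finset.sum_comm]
  apply Finset.sum_congr rfl
  intro s' _
  split_ifs with h
  · rfl
  · exact Finset.sum_const_zero

theorem GCU_half (h1 : GUB_stmt) (h2 : GSD_stmt) (η : ℝ) (hη : 0 < η) (F : Finset ℕ) (H T : ℕ)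
    (hF : ∀ s ∈ F, 1 ≤ s ∧ s ≤ H) (hT : 1 ≤ T) (hR : (#(RR F) : ℝ) ≤ η * (#F : ℝ) ^ 2) :
    ∃ Y₀ : ℕ, ∀ Y : ℕ, Y₀ ≤ Y → ∀ B : ℕ × ℕ → ℤ → ℝ, (∀ r v, 0 ≤ B r v ∧ B r v ≤ 1) →
    ∀ φ ψ : ℕ × ℕ → ℝ, (∀ p, |φ p| ≤ 1) → (∀ p, |ψ p| ≤ 1) →
    |∑ p ∈ VF F Y, ∑ p' ∈ VF F Y, (if p'.1 < p.1 then (B (rp p.1 p'.1) (((rp p.1 p'.1).2 : ℤ) * p.2 -
      ((rp p.1 p'.1).1 : ℤ) * p'.2) - PG (MH H ^ 2) T B (rp p.1 p'.1) (((rp p.1 p'.1).2 : ℤ) * p.2 -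
      ((rp p.1 p'.1).1 : ℤ) * p'.2)) else 0) * φ p * ψ p'| ≤ 7 * √η * ((#F : ℝ) * Y) ^ 2 := by
  have hsη : 0 < √η := Real.sqrt_pos.2 hη
  obtain ⟨J, hJ⟩ : ∃ J : ℕ, 1 / √η ≤ J ∧ 1 ≤ J := by
    obtain ⟨J, hJ⟩ := exists_nat_ge (1 / √η)
    exact ⟨J + 1, hJ.trans (by push_cast; linarith), by omega⟩
  have hM : 1 ≤ MH H := Nat.factorial_pos _
  have hT' : 1 ≤ J * MH H * T := Nat.mul_pos (Nat.mul_pos hJ.2 hM) hT
  obtain ⟨R, Y₀, hR', hY⟩ := h1 F H (J * MH H * T) hF hT'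
  refine ⟨Y₀, fun Y hY0 B hB φ ψ hφ hψ => ?_⟩
  have hT0 : (0 : ℝ) < T := by exact_mod_cast hT
  have hPP : ∀ r v, 0 ≤ PG (MH H ^ 2) T B r v ∧ PG (MH H ^ 2) T B r v ≤ 1 := by
    intro r v
    unfold PG sm
    constructor
    · exact div_nonneg (Finset.sum_nonneg fun τ _ => (hB r _).1) hT0.le
    · rw [div_le_one hT0]
      refine (Finset.sum_le_sum fun τ _ => (hB r _).2).trans ?_
      rw [Finset.sum_const, Finset.card_range, nsmul_eq_mul, mul_one]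
  rw [GCU_conv F R Y (fun r v => B r v - PG (MH H ^ 2) T B r v) φ ψ]
  have e1 : ∀ r x y, gr F (CUT_ext Y φ) (CUT_ext Y ψ) r x y =
      gr F (fun i x => sm (MH H) (J * MH H * T) (CUT_ext Y φ i) x) (CUT_ext Y ψ) r x y +
      gr F (fun i x => CUT_ext Y φ i x - sm (MH H) (J * MH H * T) (CUT_ext Y φ i) x) (CUT_ext Y ψ) r x y := by
    intro r x y
    unfold gr
    rw [← Finset.sum_add_distrib]
    apply Finset.sum_congr rfl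
    intro i _
    ring
  have e2 : ∑ r ∈ RR F, ∑ x ∈ XX R Y, ∑ y ∈ XX R Y, (B r ((r.2 : ℤ) * x - (r.1 : ℤ) * y) -
      PG (MH H ^ 2) T B r ((r.2 : ℤ) * x - (r.1 : ℤ) * y)) * gr F (CUT_ext Y φ) (CUT_ext Y ψ) r x y =
      ∑ r ∈ RR F, ∑ x ∈ XX R Y, ∑ y ∈ XX R Y, (B r ((r.2 : ℤ) * x - (r.1 : ℤ) * y) -
      PG (MH H ^ 2) T B r ((r.2 : ℤ) * x - (r.1 : ℤ) * y)) *
        gr F (fun i x => sm (MH H) (J * MH H * T) (CUT_ext Y φ i) x) (CUT_ext Y ψ) r x y +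
      ∑ r ∈ RR F, ∑ x ∈ XX R Y, ∑ y ∈ XX R Y, (B r ((r.2 : ℤ) * x - (r.1 : ℤ) * y) -
      PG (MH H ^ 2) T B r ((r.2 : ℤ) * x - (r.1 : ℤ) * y)) *
        gr F (fun i x => CUT_ext Y φ i x - sm (MH H) (J * MH H * T) (CUT_ext Y φ i) x) (CUT_ext Y ψ) r x y := by
    rw [← Finset.sum_add_distrib]
    apply Finset.sum_congr rfl
    intro r _
    rw [← Finset.sum_add_distrib]
    apply Finset.sum_congr rfl
    intro x _
    rw [← Finset.sum_add_distrib]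
    apply Finset.sum_congr rfl
    intro y _
    rw [e1, mul_add]
  have e3 := h2 F H T J R Y hF hT hJ.2 hR' B (CUT_ext Y φ) (CUT_ext Y ψ) hB (CUT_ext_le Y φ hφ) (CUT_ext_le Y ψ hψ)
    (CUT_ext_sp Y φ) (CUT_ext_sp Y ψ)
  have e4 := hY Y hY0 (fun r v => B r v - PG (MH H ^ 2) T B r v) (CUT_ext Y φ) (CUT_ext Y ψ) (by
    intro r v
    have g1 := hB r v
    have g2 := hPP r v
    show |B r v - PG (MH H ^ 2) T B r v| ≤ 1
    rw [abs_le]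
    constructor <;> linarith [g1.1, g1.2, g2.1, g2.2]) (CUT_ext_le Y φ hφ) (CUT_ext_le Y ψ hψ)
    (CUT_ext_sp Y φ) (CUT_ext_sp Y ψ)
  have hJ0 : (0 : ℝ) < J := by exact_mod_cast hJ.2
  have hJ1 : 1 / (J : ℝ) ≤ √η := by
    rw [div_le_iff₀ hJ0]
    have := hJ.1
    rw [div_le_iff₀ hsη] at this
    linarith
  have e5 : (#F : ℝ) ^ 2 * (Y : ℝ) ^ 2 / J ≤ √η * ((#F : ℝ) * Y) ^ 2 := by
    have h3 : (#F : ℝ) ^ 2 * (Y : ℝ) ^ 2 / J = 1 / (J : ℝ) * ((#F : ℝ) * Y) ^ 2 := by ring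
    rw [h3]
    exact mul_le_mul_of_nonneg_right hJ1 (by positivity)
  have e6 : √(#(RR F) : ℝ) ≤ √η * #F := by
    have h3 := Real.sqrt_le_sqrt hR
    rw [Real.sqrt_mul hη.le, Real.sqrt_sq (Nat.cast_nonneg _)] at h3
    exact h3
  have e7 : 6 * (√(#(RR F) : ℝ) * #F) * (Y : ℝ) ^ 2 ≤ 6 * √η * ((#F : ℝ) * Y) ^ 2 := by
    have h3 : √(#(RR F) : ℝ) * #F ≤ √η * #F * #F := mul_le_mul_of_nonneg_right e6 (Nat.cast_nonneg _)
    have h4 : √(#(RR F) : ℝ) * #F * (Y : ℝ) ^ 2 ≤ √η * #F * #F * (Y : ℝ) ^ 2 :=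
      mul_le_mul_of_nonneg_right h3 (by positivity)
    calc 6 * (√(#(RR F) : ℝ) * #F) * (Y : ℝ) ^ 2 = 6 * (√(#(RR F) : ℝ) * #F * (Y : ℝ) ^ 2) := by ring
      _ ≤ 6 * (√η * #F * #F * (Y : ℝ) ^ 2) := by linarith
      _ = 6 * √η * ((#F : ℝ) * Y) ^ 2 := by ring
  show |∑ r ∈ RR F, ∑ x ∈ XX R Y, ∑ y ∈ XX R Y, (B r ((r.2 : ℤ) * x - (r.1 : ℤ) * y) -
      PG (MH H ^ 2) T B r ((r.2 : ℤ) * x - (r.1 : ℤ) * y)) * gr F (CUT_ext Y φ) (CUT_ext Y ψ) r x y| ≤ _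
  rw [e2]
  refine (abs_add_le _ _).trans ?_
  linarith

theorem GCU (h1 : GUB_stmt) (h2 : GSD_stmt) : GCU_stmt := by
  intro η hη F H T hF hT hR
  obtain ⟨Y₀, hY⟩ := GCU_half h1 h2 η hη F H T hF hT hR
  refine ⟨Y₀, fun Y hY0 B hB φ ψ hφ hψ => ?_⟩
  have g1 := hY Y hY0 B hB φ ψ hφ hψ
  have g2 := hY Y hY0 B hB ψ φ hψ hφ
  have e1 : ∑ p ∈ VF F Y, ∑ p' ∈ VF F Y, (kg B p p' - kg (PG (MH H ^ 2) T B) p p') * φ p * ψ p' =
      ∑ p ∈ VF F Y, ∑ p' ∈ VF F Y, (if p'.1 < p.1 then (B (rp p.1 p'.1) (((rp p.1 p'.1).2 : ℤ) * p.2 -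
      ((rp p.1 p'.1).1 : ℤ) * p'.2) - PG (MH H ^ 2) T B (rp p.1 p'.1) (((rp p.1 p'.1).2 : ℤ) * p.2 -
      ((rp p.1 p'.1).1 : ℤ) * p'.2)) else 0) * φ p * ψ p' +
      ∑ p ∈ VF F Y, ∑ p' ∈ VF F Y, (if p'.1 < p.1 then (B (rp p.1 p'.1) (((rp p.1 p'.1).2 : ℤ) * p.2 -
      ((rp p.1 p'.1).1 : ℤ) * p'.2) - PG (MH H ^ 2) T B (rp p.1 p'.1) (((rp p.1 p'.1).2 : ℤ) * p.2 -
      ((rp p.1 p'.1).1 : ℤ) * p'.2)) else 0) * ψ p * φ p' := by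
    rw [Finset.sum_comm (s := VF F Y) (t := VF F Y) (f := fun p p' => (if p'.1 < p.1 then (B (rp p.1 p'.1) (((rp p.1 p'.1).2 : ℤ) * p.2 -
      ((rp p.1 p'.1).1 : ℤ) * p'.2) - PG (MH H ^ 2) T B (rp p.1 p'.1) (((rp p.1 p'.1).2 : ℤ) * p.2 -
      ((rp p.1 p'.1).1 : ℤ) * p'.2)) else 0) * ψ p * φ p'), ← Finset.sum_add_distrib]
    apply Finset.sum_congr rfl
    intro p _
    rw [← Finset.sum_add_distrib]
    apply Finset.sum_congr rfl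
    intro p' _
    unfold kg
    rcases lt_trichotomy p.1 p'.1 with h | h | h
    · rw [if_neg (by omega), if_pos h, if_neg (by omega), if_pos h, if_neg (by omega), if_pos h]
      ring
    · rw [if_neg (by omega), if_neg (by omega), if_neg (by omega), if_neg (by omega), if_neg (by omega), if_neg (by omega)]
      ring
    · rw [if_pos h, if_pos h, if_pos h, if_neg (by omega)]
      ring
  rw [e1]
  refine (abs_add_le _ _).trans ?_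
  linarith

end Pool.Agent.OM
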