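import Pool.Agent.helper10.OM.Spec

/-!
# Project om, row OMF: from averages to the numbers of true cases
-/

set_option autoImplicit false

namespace Pool.Agent.OM

open Finset Real Pool.Agent.AT Pool.Agent.helper85.FC

theorem OMF_MM1_pos (a b L : ℕ) (ha : 1 ≤ a) (hab : a ≠ b) : 1 ≤ MM1 a b L := by
  unfold MM1
  refine Nat.succ_le_of_lt (Nat.mul_pos (Nat.pow_pos ha) (Finset.prod_pos fun k hk => ?_))
  rw [Finset.mem_Ico] at hk
  rw [Int.natAbs_pos, sub_ne_zero]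
  intro h
  have h1 : a ^ k = b ^ k := by exact_mod_cast h
  exact hab (Nat.pow_left_injective (by omega) h1)

theorem OMF_sum (a b m M T : ℕ) (v : ℤ) :
    ∑ τ ∈ range T, BT a b m (v + M * τ) = (T : ℝ) - NT a b m (6 * a * b * M) T ((b : ℤ) ^ m - (a : ℤ) ^ m + 6 * a * b * v) := by
  classical
  have h1 : ∀ τ ∈ range T, BT a b m (v + M * τ) = 1 -
      (if TrueCase (b ^ m) (a ^ m) ((b : ℤ) ^ m - (a : ℤ) ^ m + 6 * a * b * v + ((6 * a * b * M : ℕ) : ℤ) * τ) then (1 : ℝ) else 0) := by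
    intro τ _
    have h2 : (b : ℤ) ^ m - (a : ℤ) ^ m + 6 * a * b * (v + M * τ) =
        (b : ℤ) ^ m - (a : ℤ) ^ m + 6 * a * b * v + ((6 * a * b * M : ℕ) : ℤ) * τ := by
      push_cast
      ring
    unfold BT
    rw [h2]
    split_ifs <;> norm_num
  rw [Finset.sum_congr rfl h1, Finset.sum_sub_distrib, Finset.sum_boole]
  unfold NT
  rw [Finset.sum_const, Finset.card_range, nsmul_eq_mul, mul_one]
  refine congrArg (fun z : ℕ => (T : ℝ) - (z : ℝ)) ?_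
  rw [← Finset.card_map (Nat.castEmbedding (R := ℤ))]
  refine congrArg Finset.card ?_
  ext t
  simp only [Finset.mem_map, Finset.mem_filter, Finset.mem_range, Nat.castEmbedding_apply, Finset.bind_def,
    Finset.mem_sup, Finset.pure_def, Finset.mem_singleton]
  constructor
  · rintro ⟨τ, ⟨h2, h3⟩, rfl⟩
    exact ⟨⟨τ, h2, rfl⟩, h3⟩
  · rintro ⟨⟨τ, h2, rfl⟩, h3⟩
    exact ⟨τ, ⟨h2, h3⟩, rfl⟩

theorem OMF (h1 : OMP_stmt) : OMF_stmt := by
  intro hQ ε hε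
  obtain ⟨L₀, hL₀, h2⟩ := h1 hQ ε hε
  refine ⟨L₀, hL₀, fun L hL a b ha hb hc hab => ⟨6 * a * b * (b ^ L * MM1 a b L), ?_, fun T hT => ?_⟩⟩
  · have h3 := OMF_MM1_pos a b L ha hab
    have h4 : 0 < b ^ L := Nat.pow_pos hb
    exact Nat.succ_le_of_lt (Nat.mul_pos (Nat.mul_pos (Nat.mul_pos (by norm_num) ha) hb) (Nat.mul_pos h4 h3))
  · obtain ⟨Y₀, h3⟩ := h2 L hL a b ha hb hc hab T hT
    refine ⟨Y₀, fun Y hY => (h3 Y hY).trans ?_⟩
    refine Nat.cast_le.2 (Finset.card_le_card fun t ht => ?_)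
    rw [Finset.mem_filter] at ht ⊢
    obtain ⟨ht1, ht2, ht3⟩ := ht
    refine ⟨ht1, ht2, ?_⟩
    unfold kr at ht3
    rw [if_pos ht2] at ht3
    unfold PP sm at ht3
    rw [OMF_sum] at ht3
    have hT0 : (0 : ℝ) < T := by exact_mod_cast hT
    rw [div_lt_iff₀ hT0] at ht3
    have h5 : (b : ℤ) ^ (t.1.1 - t.2.1) - (a : ℤ) ^ (t.1.1 - t.2.1) +
        6 * a * b * ((b : ℤ) ^ (t.1.1 - t.2.1) * t.1.2 - (a : ℤ) ^ (t.1.1 - t.2.1) * t.2.2) =
        (b : ℤ) ^ (t.1.1 - t.2.1) * (1 + 6 * a * b * t.1.2) - (a : ℤ) ^ (t.1.1 - t.2.1) * (1 + 6 * a * b * t.2.2) := by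
      ring
    rw [h5] at ht3
    linarith

end Pool.Agent.OM
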